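import Pool.Agent.TH641.CW.Defs
import Pool.Agent.Helper133.BUProd

/-!
# CW-T2 (job 2058, helper230 for helper641): the Borsuk-Ulam step
-/

set_option autoImplicit false

namespace Pool.Agent.TH230.CW

open Pool.Agent.TH641.CW
open Pool.Agent.Helper133.BT (Om PP flp flp_mem sgn triangular)

/-- the dimensions of the blocks -/
def nn : ℕ → ℕ
  | 1 => 3
  | _ => 1

theorem nn_pos (i : ℕ) : 1 ≤ nn i := by
  unfold nn
  split <;> omega

/-- the first block -/
def aa (v : Om nn) : Fin 2 → ℝ := v 0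

/-- the second block -/
def bb (v : Om nn) : Fin 4 → ℝ := v 1

/-- the Euclidean norm -/
noncomputable def nr {m : ℕ} (w : Fin m → ℝ) : ℝ := √(∑ i, w i ^ 2)

theorem nr_neg {m : ℕ} (w : Fin m → ℝ) : nr (-w) = nr w := by simp [nr]

theorem nr_pos {m : ℕ} {w : Fin m → ℝ} (h : ∑ i, |w i| = 1) : 0 < nr w := by
  unfold nr
  rw [Real.sqrt_pos]
  by_contra hcon
  have h0 : ∑ i, w i ^ 2 = 0 := le_antisymm (not_lt.1 hcon) (Finset.sum_nonneg fun _ _ => sq_nonneg _)
  rw [Finset.sum_eq_zero_iff_of_nonneg (fun i _ => sq_nonneg _)] at h0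
  have : ∑ i, |w i| = 0 := Finset.sum_eq_zero fun i hi => by
    have := h0 i hi
    rw [pow_eq_zero_iff (by norm_num)] at this
    rw [this, abs_zero]
  rw [this] at h
  norm_num at h

theorem nr_sq {m : ℕ} (w : Fin m → ℝ) : nr w ^ 2 = ∑ i, w i ^ 2 :=
  Real.sq_sqrt (Finset.sum_nonneg fun i _ => sq_nonneg _)

theorem continuous_nr {m : ℕ} : Continuous (nr (m := m)) := by
  unfold nr
  fun_prop

/-- the normalised vector -/
noncomputable def nz {m : ℕ} (w : Fin m → ℝ) (i : Fin m) : ℝ := w i / nr w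

theorem nz_neg {m : ℕ} (w : Fin m → ℝ) : nz (-w) = -nz w := by
  ext i
  simp [nz, nr_neg, neg_div]

theorem nz_sq {m : ℕ} {w : Fin m → ℝ} (h : ∑ i, |w i| = 1) : ∑ i, nz w i ^ 2 = 1 := by
  have h1 := nr_pos h
  simp only [nz, div_pow]
  rw [← Finset.sum_div, ← nr_sq]
  exact div_self (by positivity)

theorem continuousAt_nz {m : ℕ} {w : Fin m → ℝ} (h : ∑ i, |w i| = 1) : ContinuousAt nz w := by
  have h1 := nr_pos h
  rw [continuousAt_pi]
  intro i
  exact (continuous_apply i).continuousAt.div continuous_nr.continuousAt h1.ne'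

/-- the frame -/
noncomputable def fr (a : Fin 2 → ℝ) (c : Fin 4 → ℝ) : Fin 4 → E4 :=
  ![!₂[c 0, c 1, c 2, c 3],
    !₂[(√2)⁻¹ * (-c 1 + (a 0 * -c 2 + a 1 * -c 3)), (√2)⁻¹ * (c 0 + (a 0 * c 3 + a 1 * -c 2)),
      (√2)⁻¹ * (-c 3 + (a 0 * c 0 + a 1 * c 1)), (√2)⁻¹ * (c 2 + (a 0 * -c 1 + a 1 * c 0))],
    !₂[(√2)⁻¹ * (-c 1 - (a 0 * -c 2 + a 1 * -c 3)), (√2)⁻¹ * (c 0 - (a 0 * c 3 + a 1 * -c 2)),
      (√2)⁻¹ * (-c 3 - (a 0 * c 0 + a 1 * c 1)), (√2)⁻¹ * (c 2 - (a 0 * -c 1 + a 1 * c 0))],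
    !₂[-a 1 * -c 2 + a 0 * -c 3, -a 1 * c 3 + a 0 * -c 2,
      -a 1 * c 0 + a 0 * c 1, -a 1 * -c 1 + a 0 * c 0]]

theorem fr_orth {a : Fin 2 → ℝ} {c : Fin 4 → ℝ} (ha : ∑ i, a i ^ 2 = 1) (hc : ∑ i, c i ^ 2 = 1) :
    Orthonormal ℝ (fr a c) := by
  rw [Fin.sum_univ_two] at ha
  rw [Fin.sum_univ_four] at hc
  have hs : (√2)⁻¹ ^ 2 = (1 / 2 : ℝ) := by
    rw [inv_pow, Real.sq_sqrt (by norm_num)]
    norm_num
  generalize hsd : ((√2)⁻¹ : ℝ) = s at hs
  rw [orthonormal_iff_ite]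
  intro i j
  rw [PiLp.inner_apply, Fin.sum_univ_four]
  fin_cases i <;> fin_cases j <;> simp [fr, hsd]
  · exact hc
  · ring
  · ring
  · ring
  · ring
  · simp only [mul_pow, sq_abs]
    linear_combination s ^ 2 * (1 + (a 0 ^ 2 + a 1 ^ 2)) * hc + s ^ 2 * ha + 2 * hs
  · linear_combination (-s ^ 2 * (c 0 ^ 2 + c 1 ^ 2 + c 2 ^ 2 + c 3 ^ 2)) * ha
  · ring
  · ring
  · linear_combination (-s ^ 2 * (c 0 ^ 2 + c 1 ^ 2 + c 2 ^ 2 + c 3 ^ 2)) * ha
  · simp only [mul_pow, sq_abs]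
    linear_combination s ^ 2 * (1 + (a 0 ^ 2 + a 1 ^ 2)) * hc + s ^ 2 * ha + 2 * hs
  · ring
  · ring
  · ring
  · ring
  · linear_combination (a 0 ^ 2 + a 1 ^ 2) * hc + ha

theorem fr_neg (a : Fin 2 → ℝ) (c : Fin 4 → ℝ) : fr a (-c) = negF (fr a c) := by
  funext i
  ext j
  fin_cases i <;> fin_cases j <;> simp [fr, negF] <;> ring

theorem fr_swap (a : Fin 2 → ℝ) (c : Fin 4 → ℝ) : fr (-a) c = swapF (fr a c) := by
  funext i
  ext j
  fin_cases i <;> fin_cases j <;> simp [fr, swapF] <;> ring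

theorem continuous_fr : Continuous (fun v : (Fin 2 → ℝ) × (Fin 4 → ℝ) => fr v.1 v.2) := by
  refine continuous_pi fun i => ?_
  fin_cases i <;> simp only [fr] <;> fun_prop

theorem negT_negT (σ : Fin 4 → Bool) : negT (negT σ) = σ := by
  funext i
  simp [negT]

theorem swapT_swapT (σ : Fin 4 → Bool) : swapT (swapT σ) = σ := by
  funext i
  fin_cases i <;> simp [swapT]

theorem sg_not (b : Bool) : sg (!b) = -sg b := by
  cases b <;> simp [sg]

theorem eps_negT (σ : Fin 4 → Bool) : eps (negT σ) = eps σ := by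
  simp only [eps, negT, sg_not]
  ring

theorem eps_swapT (σ : Fin 4 → Bool) : eps (swapT σ) = -eps σ := by
  show sg (σ 0) * sg (σ 2) * sg (σ 1) * sg (!(σ 3)) =
    -(sg (σ 0) * sg (σ 1) * sg (σ 2) * sg (σ 3))
  rw [sg_not]
  ring

/-- the sum of the signed weights -/
noncomputable def gg (φ : (Fin 4 → Bool) → (Fin 4 → E4) → ℝ) (f : Fin 4 → E4) : ℝ :=
  ∑ σ, φ σ f * eps σ

/-- the signed weights of a coordinate -/
noncomputable def FF (φ : (Fin 4 → Bool) → (Fin 4 → E4) → ℝ) (i : Fin 4) (f : Fin 4 → E4) : ℝ :=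
  ∑ σ, φ σ f * eps σ * sg (σ i)

section

variable {φ : (Fin 4 → Bool) → (Fin 4 → E4) → ℝ}

theorem gg_neg (hneg : ∀ σ f, Orthonormal ℝ f → φ (negT σ) (negF f) = φ σ f) {f : Fin 4 → E4}
    (hf : Orthonormal ℝ f) : gg φ (negF f) = gg φ f := by
  unfold gg
  rw [← Equiv.sum_comp (Function.Involutive.toPerm negT negT_negT)]
  refine Finset.sum_congr rfl fun σ _ => ?_
  show φ (negT σ) (negF f) * eps (negT σ) = _
  rw [hneg σ f hf, eps_negT]

theorem gg_swap (hswap : ∀ σ f, Orthonormal ℝ f → φ (swapT σ) (swapF f) = φ σ f) {f : Fin 4 → E4}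
    (hf : Orthonormal ℝ f) : gg φ (swapF f) = -gg φ f := by
  unfold gg
  rw [← Equiv.sum_comp (Function.Involutive.toPerm swapT swapT_swapT), ← Finset.sum_neg_distrib]
  refine Finset.sum_congr rfl fun σ _ => ?_
  show φ (swapT σ) (swapF f) * eps (swapT σ) = _
  rw [hswap σ f hf, eps_swapT]
  ring

theorem FF_neg (hneg : ∀ σ f, Orthonormal ℝ f → φ (negT σ) (negF f) = φ σ f) {f : Fin 4 → E4}
    (hf : Orthonormal ℝ f) (i : Fin 4) : FF φ i (negF f) = -FF φ i f := by
  unfold FF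
  rw [← Equiv.sum_comp (Function.Involutive.toPerm negT negT_negT), ← Finset.sum_neg_distrib]
  refine Finset.sum_congr rfl fun σ _ => ?_
  show φ (negT σ) (negF f) * eps (negT σ) * sg (negT σ i) = _
  rw [hneg σ f hf, eps_negT, negT, sg_not]
  ring

theorem FF_swap (hswap : ∀ σ f, Orthonormal ℝ f → φ (swapT σ) (swapF f) = φ σ f) {f : Fin 4 → E4}
    (hf : Orthonormal ℝ f) : FF φ 1 (swapF f) = -FF φ 2 f ∧ FF φ 2 (swapF f) = -FF φ 1 f ∧
      FF φ 3 (swapF f) = FF φ 3 f := by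
  refine ⟨?_, ?_, ?_⟩
  · unfold FF
    rw [← Equiv.sum_comp (Function.Involutive.toPerm swapT swapT_swapT), ← Finset.sum_neg_distrib]
    refine Finset.sum_congr rfl fun σ _ => ?_
    show φ (swapT σ) (swapF f) * eps (swapT σ) * sg (σ 2) = _
    rw [hswap σ f hf, eps_swapT]
    ring
  · unfold FF
    rw [← Equiv.sum_comp (Function.Involutive.toPerm swapT swapT_swapT), ← Finset.sum_neg_distrib]
    refine Finset.sum_congr rfl fun σ _ => ?_
    show φ (swapT σ) (swapF f) * eps (swapT σ) * sg (σ 1) = _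
    rw [hswap σ f hf, eps_swapT]
    ring
  · unfold FF
    rw [← Equiv.sum_comp (Function.Involutive.toPerm swapT swapT_swapT)]
    refine Finset.sum_congr rfl fun σ _ => ?_
    show φ (swapT σ) (swapF f) * eps (swapT σ) * sg (!(σ 3)) = _
    rw [hswap σ f hf, eps_swapT, sg_not]
    ring

end

/-- the system of functions -/
noncomputable def sys (φ : (Fin 4 → Bool) → (Fin 4 → E4) → ℝ) : ℕ → ℕ → (Fin 2 → ℝ) →
    (Fin 4 → ℝ) → ℝ
  | 0, _, a, c => gg φ (fr a c)
  | _ + 1, 0, a, c => FF φ 1 (fr a c) + FF φ 2 (fr a c)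
  | _ + 1, 1, a, c => a 0 * (FF φ 1 (fr a c) - FF φ 2 (fr a c)) - a 1 * FF φ 3 (fr a c)
  | _ + 1, _ + 2, a, c => a 1 * (FF φ 1 (fr a c) - FF φ 2 (fr a c)) + a 0 * FF φ 3 (fr a c)

theorem common_zero (φ : (Fin 4 → Bool) → (Fin 4 → E4) → ℝ) (hcont : ∀ σ, Continuous (φ σ))
    (hneg : ∀ σ f, Orthonormal ℝ f → φ (negT σ) (negF f) = φ σ f)
    (hswap : ∀ σ f, Orthonormal ℝ f → φ (swapT σ) (swapF f) = φ σ f) :
    ∃ f : Fin 4 → E4, Orthonormal ℝ f ∧
      (∀ i : Fin 4, i ≠ 0 → ∑ σ, φ σ f * eps σ * sg (σ i) = 0) ∧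
      ∑ σ, φ σ f * eps σ = 0 := by
  have hA : ∀ v ∈ PP nn, ∑ i, |aa v i| = 1 := fun v hv => hv 0
  have hB : ∀ v ∈ PP nn, ∑ i, |bb v i| = 1 := fun v hv => hv 1
  have horth : ∀ v ∈ PP nn, Orthonormal ℝ (fr (nz (aa v)) (nz (bb v))) := fun v hv =>
    fr_orth (nz_sq (hA v hv)) (nz_sq (hB v hv))
  have hca : ∀ v ∈ PP nn, ContinuousAt (fun v => nz (aa v)) v := fun v hv =>
    (continuousAt_nz (hA v hv)).comp (f := aa) (continuous_apply 0).continuousAt
  have hcb : ∀ v ∈ PP nn, ContinuousAt (fun v => nz (bb v)) v := fun v hv =>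
    (continuousAt_nz (hB v hv)).comp (f := bb) (continuous_apply 1).continuousAt
  have hcf : ∀ v ∈ PP nn, ContinuousAt (fun v => fr (nz (aa v)) (nz (bb v))) v := fun v hv =>
    continuous_fr.continuousAt.comp (f := fun v => (nz (aa v), nz (bb v)))
      ((hca v hv).prodMk (hcb v hv))
  have hgg : Continuous (gg φ) := by
    unfold gg
    fun_prop
  have hFF : ∀ i, Continuous (FF φ i) := by
    intro i
    unfold FF
    fun_prop
  obtain ⟨v, hv, hz⟩ := triangular nn nn_pos 2 (fun i _ k => if k ≤ i then 1 else 0)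
    (fun i _ => by simp) (fun i _ k h => by simp [not_le.2 h])
    (fun i r v => sys φ i r (nz (aa v)) (nz (bb v))) (by
      intro i r v hv
      refine ContinuousAt.continuousWithinAt ?_
      have h0 := hca v hv
      rw [continuousAt_pi] at h0
      have h1 := h0 0
      have h2 := h0 1
      have h3 : ContinuousAt (fun v => gg φ (fr (nz (aa v)) (nz (bb v)))) v :=
        hgg.continuousAt.comp (hcf v hv)
      have h4 : ∀ i, ContinuousAt (fun v => FF φ i (fr (nz (aa v)) (nz (bb v)))) v := fun i =>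
        (hFF i).continuousAt.comp (hcf v hv)
      rcases i with _ | i
      · exact h3
      · rcases r with _ | _ | r
        · exact (h4 1).add (h4 2)
        · exact (h1.mul ((h4 1).sub (h4 2))).sub (h2.mul (h4 3))
        · exact (h2.mul ((h4 1).sub (h4 2))).add (h1.mul (h4 3))) (by
      intro i hi r hr k hk v hv
      have ho := horth v hv
      have e00 : aa (flp nn 0 v) = -aa v :=
        Function.update_self (β := fun i => Fin (nn i + 1) → ℝ) 0 (-(v 0)) v
      have e01 : bb (flp nn 0 v) = bb v :=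
        Function.update_of_ne (β := fun i => Fin (nn i + 1) → ℝ) one_ne_zero (-(v 0)) v
      have e10 : aa (flp nn 1 v) = aa v :=
        Function.update_of_ne (β := fun i => Fin (nn i + 1) → ℝ) zero_ne_one (-(v 1)) v
      have e11 : bb (flp nn 1 v) = -bb v :=
        Function.update_self (β := fun i => Fin (nn i + 1) → ℝ) 1 (-(v 1)) v
      have g1 := gg_neg hneg ho
      have g2 := gg_swap hswap ho
      have f1 := FF_neg hneg ho
      have f2 := FF_swap hswap ho
      have s0 : sgn 0 = 1 := by simp [sgn]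
      have s1 : sgn 1 = -1 := by simp [sgn]
      beta_reduce
      obtain rfl | rfl : k = 0 ∨ k = 1 := by omega
      · rw [e00, e01, nz_neg]
        rcases i with _ | i
        · simp only [sys, fr_swap, g2, Nat.le_refl, if_true, s1]
          ring
        · rcases r with _ | _ | r
          · simp only [sys, fr_swap, f2.1, f2.2.1, Nat.zero_le, if_true, s1]
            ring
          · simp only [sys, fr_swap, f2.1, f2.2.1, f2.2.2, Nat.zero_le, if_true, s1, Pi.neg_apply]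
            ring
          · simp only [sys, fr_swap, f2.1, f2.2.1, f2.2.2, Nat.zero_le, if_true, s1, Pi.neg_apply]
            ring
      · rw [e10, e11, nz_neg]
        rcases i with _ | i
        · rw [if_neg (by norm_num : ¬ (1 : ℕ) ≤ 0), s0, one_mul]
          simp only [sys, fr_neg, g1]
        · have hi1 : (1 : ℕ) ≤ i + 1 := by omega
          rcases r with _ | _ | r
          · simp only [sys, fr_neg, f1, hi1, if_true, s1]
            ring
          · simp only [sys, fr_neg, f1, hi1, if_true, s1]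
            ring
          · simp only [sys, fr_neg, f1, hi1, if_true, s1]
            ring)
  have z0 := hz 0 (by norm_num) 0 (by norm_num [nn])
  have z1 := hz 1 (by norm_num) 0 (by norm_num [nn])
  have z2 := hz 1 (by norm_num) 1 (by norm_num [nn])
  have z3 := hz 1 (by norm_num) 2 (by norm_num [nn])
  simp only [sys] at z0 z1 z2 z3
  have hr := nz_sq (hA v hv)
  rw [Fin.sum_univ_two] at hr
  set f := fr (nz (aa v)) (nz (bb v)) with hf
  have w1 : FF φ 1 f - FF φ 2 f = 0 := by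
    linear_combination (nz (aa v) 0) * z2 + (nz (aa v) 1) * z3 - (FF φ 1 f - FF φ 2 f) * hr
  have w2 : FF φ 3 f = 0 := by
    linear_combination (nz (aa v) 0) * z3 - (nz (aa v) 1) * z2 - (FF φ 3 f) * hr
  have w3 : FF φ 1 f = 0 := by linarith
  have w4 : FF φ 2 f = 0 := by linarith
  refine ⟨f, horth v hv, ?_, z0⟩
  intro i hi
  fin_cases i
  · exact absurd rfl hi
  · exact w3
  · exact w4
  · exact w2

end Pool.Agent.TH230.CW
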